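import Pool.Agent.helper33.SF.Spec

set_option autoImplicit false

open Finset

namespace Pool.Agent.SF

theorem DSM_div (T t : ℕ) (ht : t ∈ Icc 1 T) :
    t.divisors = (Icc 1 T).filter (fun e => e ∣ t) := by
  rw [mem_Icc] at ht
  ext e
  rw [Nat.mem_divisors, mem_filter, mem_Icc]
  constructor
  · rintro ⟨h1, h2⟩
    exact ⟨⟨Nat.pos_of_dvd_of_pos h1 (by omega), le_trans (Nat.le_of_dvd (by omega) h1) ht.2⟩, h1⟩
  · rintro ⟨_, h2⟩
    exact ⟨h2, by omega⟩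

theorem DSM_card (T e : ℕ) : ((Icc 1 T).filter (fun t => e ∣ t)).card = T / e := by
  rw [← Nat.Ioc_filter_dvd_card_eq_div T e]
  rfl

theorem DSM : DSM_stmt := by
  intro T hT
  have h1 : ∑ t ∈ Icc 1 T, ((t.divisors.card : ℕ) : ℝ)
      = ∑ e ∈ Icc 1 T, ((T / e : ℕ) : ℝ) := by
    have ha : ∀ t ∈ Icc 1 T, ((t.divisors.card : ℕ) : ℝ)
        = ∑ e ∈ Icc 1 T, (if e ∣ t then (1 : ℝ) else 0) := by
      intro t ht
      rw [DSM_div T t ht, Finset.sum_boole]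
    have hb : ∀ e ∈ Icc 1 T, ((T / e : ℕ) : ℝ)
        = ∑ t ∈ Icc 1 T, (if e ∣ t then (1 : ℝ) else 0) := by
      intro e _
      rw [← DSM_card T e, Finset.sum_boole]
    rw [Finset.sum_congr rfl ha, Finset.sum_congr rfl hb, Finset.sum_comm]
  rw [h1]
  have h2 : ∑ e ∈ Icc 1 T, ((T / e : ℕ) : ℝ) ≤ ∑ e ∈ Icc 1 T, (T : ℝ) * ((e : ℝ))⁻¹ := by
    apply Finset.sum_le_sum
    intro e _
    rw [← div_eq_mul_inv]
    exact Nat.cast_div_le
  refine le_trans h2 ?_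
  rw [← Finset.mul_sum]
  have h3 : ∑ e ∈ Icc 1 T, ((e : ℝ))⁻¹ = ((harmonic T : ℚ) : ℝ) := by
    rw [harmonic_eq_sum_Icc]
    push_cast
    rfl
  rw [h3]
  exact mul_le_mul_of_nonneg_left (harmonic_le_one_add_log T) (Nat.cast_nonneg T)

end Pool.Agent.SF
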